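import Mathlib

/-!
# Transcendence degree of a field all of whose generators are algebraic over a small field
-/

namespace Pool.Agent.V1143.LR

open Cardinal IntermediateField

theorem trdeg_adjoin_le_mk (T : Set ℂ) :
    Algebra.trdeg ℚ (IntermediateField.adjoin ℚ T) ≤ #T := by
  set E := IntermediateField.adjoin ℚ T with hE
  let s : Set E := Subtype.val ⁻¹' T
  have hs : #s ≤ #T := by
    refine Cardinal.mk_le_of_injective (f := fun x : s => (⟨x.1.1, x.2⟩ : T)) ?_
    intro x y h
    have h1 : x.1.1 = y.1.1 := by simpa using h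
    exact Subtype.ext (Subtype.ext h1)
  have key : ∀ y : ℂ, y ∈ Algebra.adjoin ℚ T →
      ∀ hy : y ∈ E, (⟨y, hy⟩ : E) ∈ Algebra.adjoin ℚ s := by
    intro y hy
    induction hy using Algebra.adjoin_induction with
    | mem x hx =>
      intro hy
      exact Algebra.subset_adjoin (show (⟨x, hy⟩ : E) ∈ s from hx)
    | algebraMap r =>
      intro hy
      exact (Algebra.adjoin ℚ s).algebraMap_mem r
    | add x y hx hy ihx ihy =>
      intro hxy
      have h1 : x ∈ E := IntermediateField.algebra_adjoin_le_adjoin ℚ T hx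
      have h2 : y ∈ E := IntermediateField.algebra_adjoin_le_adjoin ℚ T hy
      have := (Algebra.adjoin ℚ s).add_mem (ihx h1) (ihy h2)
      exact this
    | mul x y hx hy ihx ihy =>
      intro hxy
      have h1 : x ∈ E := IntermediateField.algebra_adjoin_le_adjoin ℚ T hx
      have h2 : y ∈ E := IntermediateField.algebra_adjoin_le_adjoin ℚ T hy
      have := (Algebra.adjoin ℚ s).mul_mem (ihx h1) (ihy h2)
      exact this
  have alg : Algebra.IsAlgebraic (Algebra.adjoin ℚ s) E := by
    refine ⟨fun x => ?_⟩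
    obtain ⟨r, hr, t, ht, hx⟩ := (IntermediateField.mem_adjoin_iff_div (F := ℚ) (S := T)
      (x := (x : ℂ))).1 x.2
    have h1 : r ∈ E := IntermediateField.algebra_adjoin_le_adjoin ℚ T hr
    have h2 : t ∈ E := IntermediateField.algebra_adjoin_le_adjoin ℚ T ht
    have hx' : x = (⟨r, h1⟩ : E) / ⟨t, h2⟩ := Subtype.ext hx
    rw [hx', div_eq_mul_inv]
    refine IsAlgebraic.mul ?_ (IsAlgebraic.inv ?_)
    · exact isAlgebraic_algebraMap (A := E) (⟨⟨r, h1⟩, key r hr h1⟩ : Algebra.adjoin ℚ s)
    · exact isAlgebraic_algebraMap (A := E) (⟨⟨t, h2⟩, key t ht h2⟩ : Algebra.adjoin ℚ s)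
  exact (Algebra.IsAlgebraic.trdeg_le_cardinalMk ℚ s).trans hs

theorem trdeg_le_of_isAlgebraic (T S : Set ℂ)
    (h : ∀ z ∈ S, IsAlgebraic (IntermediateField.adjoin ℚ T) z) :
    Algebra.trdeg ℚ (IntermediateField.adjoin ℚ S) ≤ #T := by
  set E := IntermediateField.adjoin ℚ T with hE
  let L := algebraicClosure E ℂ
  have h1 : Algebra.trdeg ℚ L ≤ #T := by
    have h2 := trdeg_add_eq ℚ E (A := L)
    have h3 : Algebra.trdeg E L = 0 := trdeg_eq_zero
    rw [h3, add_zero] at h2
    rw [← h2]
    exact trdeg_adjoin_le_mk T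
  have h4 : IntermediateField.adjoin ℚ S ≤ L.restrictScalars ℚ := by
    rw [IntermediateField.adjoin_le_iff]
    intro z hz
    have := h z hz
    exact (mem_algebraicClosure_iff (F := E) (E := ℂ)).2 this
  let f : IntermediateField.adjoin ℚ S →ₐ[ℚ] L := IntermediateField.inclusion h4
  have hf : Function.Injective f := f.toRingHom.injective
  exact (trdeg_le_of_injective f hf).trans h1

end Pool.Agent.V1143.LR
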