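import Pool.Agent.V1143.LR.Main

/-!
# The bound `tr.deg F_{2m} ≤ 1 + φ(2m)/2 - φ(2m)/(2 ord_m 2)`
-/

namespace Pool.Agent.V1143.LR

open Complex Cardinal

variable {m : ℕ}

/-- the subgroup of units `v` with `v` or `-v` in `⟨t⟩` -/
def HH (t : (ZMod m)ˣ) : Subgroup (ZMod m)ˣ where
  carrier := {v | v ∈ Subgroup.zpowers t ∨ -v ∈ Subgroup.zpowers t}
  one_mem' := Or.inl (Subgroup.one_mem _)
  mul_mem' := by
    rintro a b (ha | ha) (hb | hb)
    · exact Or.inl (Subgroup.mul_mem _ ha hb)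
    · refine Or.inr ?_
      have := Subgroup.mul_mem _ ha hb
      rwa [mul_neg] at this
    · refine Or.inr ?_
      have := Subgroup.mul_mem _ ha hb
      rwa [neg_mul] at this
    · refine Or.inl ?_
      have := Subgroup.mul_mem _ ha hb
      rwa [neg_mul_neg] at this
  inv_mem' := by
    rintro a (ha | ha)
    · exact Or.inl (Subgroup.inv_mem _ ha)
    · refine Or.inr ?_
      have := Subgroup.inv_mem _ ha
      rwa [inv_neg] at this

theorem card_HH [NeZero m] (t : (ZMod m)ˣ) (hneg : (-1 : (ZMod m)ˣ) ∉ Subgroup.zpowers t) :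
    Nat.card (HH t) = 2 * orderOf t := by
  have hle : Subgroup.zpowers t ≤ HH t := fun v hv => Or.inl hv
  have hidx : (Subgroup.zpowers t).relIndex (HH t) = 2 := by
    unfold Subgroup.relIndex
    rw [Subgroup.index_eq_two_iff]
    refine ⟨⟨-1, Or.inr ?_⟩, ?_⟩
    · rw [neg_neg]; exact Subgroup.one_mem _
    · rintro ⟨b, hb⟩
      simp only [Subgroup.mem_subgroupOf, Subgroup.coe_mul]
      have e : b * -1 = -b := by simp
      rw [e]
      rcases hb with hb | hb
      · refine Or.inr ⟨hb, fun h => hneg ?_⟩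
        have := Subgroup.mul_mem _ h (Subgroup.inv_mem _ hb)
        rwa [neg_mul, mul_inv_cancel] at this
      · refine Or.inl ⟨hb, fun h => hneg ?_⟩
        have := Subgroup.mul_mem _ hb (Subgroup.inv_mem _ h)
        rwa [neg_mul, mul_inv_cancel] at this
  have h2 := Subgroup.card_mul_index ((Subgroup.zpowers t).subgroupOf (HH t))
  have h3 : Nat.card ((Subgroup.zpowers t).subgroupOf (HH t)) = orderOf t := by
    rw [← Nat.card_zpowers]
    exact Nat.card_congr (Subgroup.subgroupOfEquivOfLe hle).toEquiv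
  rw [h3] at h2
  rw [← h2]
  unfold Subgroup.relIndex at hidx
  rw [hidx, mul_comm]

theorem trdeg_bound_aux (h1 : 1 < m) (hm : Odd m) (t : (ZMod m)ˣ) (ht : (t : ZMod m) = 2)
    (N : ℕ) (hN : N = Nat.card ((ZMod m)ˣ ⧸ HH t)) :
    Algebra.trdeg ℚ (gammaField (2 * m)) ≤ ((1 + N * (orderOf t - 1) : ℕ) : Cardinal) := by
  have : NeZero m := ⟨by omega⟩
  classical
  let f := orderOf t
  have hf : t ^ f = 1 := pow_orderOf_eq_one t
  have hf0 : 0 < f := orderOf_pos t
  let Q := (ZMod m)ˣ ⧸ HH t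
  let F : Option (Q × Fin (f - 1)) → ℂ := fun o => o.elim (Real.pi : ℂ)
    (fun qi => gg (t ^ ((qi.2 : ℕ) + 1) * Quotient.out qi.1))
  let T : Set ℂ := Set.range F
  have hT : #T ≤ ((1 + N * (f - 1) : ℕ) : Cardinal) := by
    refine Cardinal.mk_range_le.trans ?_
    have hfin : Fintype Q := Fintype.ofFinite Q
    rw [Cardinal.mk_fintype, Fintype.card_option, Fintype.card_prod, Fintype.card_fin]
    have hNQ : Fintype.card Q = N := by rw [hN, Nat.card_eq_fintype_card]
    rw [hNQ, add_comm]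
  refine (trdeg_le_of_isAlgebraic T _ ?_).trans hT
  have hpi : (Real.pi : ℂ) ∈ IntermediateField.adjoin ℚ T :=
    IntermediateField.subset_adjoin ℚ T ⟨none, rfl⟩
  have hall : ∀ u : (ZMod m)ˣ, IsAlgebraic (IntermediateField.adjoin ℚ T) (gg u) := by
    intro u
    let w : (ZMod m)ˣ := Quotient.out (QuotientGroup.mk u : Q)
    have hw : ∀ i, 1 ≤ i → i < f → IsAlgebraic (IntermediateField.adjoin ℚ T) (gg (t ^ i * w)) := by
      intro i h1i hif
      have hmem : gg (t ^ i * w) ∈ IntermediateField.adjoin ℚ T := by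
        refine IntermediateField.subset_adjoin ℚ T ⟨some (QuotientGroup.mk u, ⟨i - 1, by omega⟩), ?_⟩
        change gg (t ^ (i - 1 + 1) * w) = _
        rw [Nat.sub_add_cancel h1i]
      exact isAlgebraic_algebraMap (A := ℂ) (⟨_, hmem⟩ : IntermediateField.adjoin ℚ T)
    have hcos := coset_alg (IntermediateField.adjoin ℚ T) hpi h1 hm t ht f hf0 hf w hw
    have hmem : w⁻¹ * u ∈ HH t := by
      rw [← QuotientGroup.eq]
      exact Quotient.out_eq' _
    rcases hmem with h | h
    · obtain ⟨i, hi⟩ := (mem_zpowers_iff_mem_range_orderOf).1 h |> Finset.mem_image.1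
      obtain ⟨hi1, hi2⟩ := hi
      have e : u = t ^ i * w := by
        rw [hi2, mul_comm w⁻¹, inv_mul_cancel_right]
      rw [e]
      exact (hcos i (Finset.mem_range.1 hi1)).1
    · obtain ⟨i, hi⟩ := (mem_zpowers_iff_mem_range_orderOf).1 h |> Finset.mem_image.1
      obtain ⟨hi1, hi2⟩ := hi
      have e : u = -(t ^ i * w) := by
        rw [hi2, neg_mul, neg_neg, mul_comm w⁻¹, inv_mul_cancel_right]
      rw [e]
      exact (hcos i (Finset.mem_range.1 hi1)).2
  rintro z (hz | ⟨a, ha1, ha2, hgcd, rfl⟩)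
  · rw [Set.mem_singleton_iff] at hz
    subst hz
    exact isAlgebraic_algebraMap (A := ℂ) (⟨_, hpi⟩ : IntermediateField.adjoin ℚ T)
  · have hco : Nat.Coprime a m := Nat.Coprime.coprime_mul_left_right hgcd
    have hco2 : Nat.Coprime a 2 := Nat.Coprime.coprime_mul_right_right hgcd
    have hodd : Odd a := Nat.coprime_two_right.1 hco2
    have hlt : a < 2 * m := by omega
    have e := cc_unitOfCoprime h1 a hlt hodd hm hco
    have := hall (ZMod.unitOfCoprime a hco)
    unfold gg at this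
    rwa [e] at this

theorem trdeg_bound (h1 : 1 < m) (hm : Odd m) (hneg : ∀ k : ℕ, (2 : ZMod m) ^ k ≠ -1) :
    Algebra.trdeg ℚ (gammaField (2 * m)) ≤
      ((1 + Nat.totient (2 * m) / 2 - Nat.totient (2 * m) / (2 * orderOf (2 : ZMod m)) : ℕ) :
        Cardinal) := by
  have : NeZero m := ⟨by omega⟩
  have hco : Nat.Coprime 2 m := Nat.coprime_two_left.2 hm
  let t : (ZMod m)ˣ := ZMod.unitOfCoprime 2 hco
  have ht : (t : ZMod m) = 2 := by
    change ((2 : ℕ) : ZMod m) = 2
    norm_num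
  have hord : orderOf (2 : ZMod m) = orderOf t := by rw [← orderOf_units, ht]
  have hn : (-1 : (ZMod m)ˣ) ∉ Subgroup.zpowers t := by
    intro h
    obtain ⟨i, hi1, hi2⟩ := (mem_zpowers_iff_mem_range_orderOf).1 h |> Finset.mem_image.1
    apply hneg i
    have := congrArg (fun v : (ZMod m)ˣ => (v : ZMod m)) hi2
    simpa [ht] using this
  have hcard := card_HH t hn
  have hU : Nat.card (ZMod m)ˣ = Nat.totient m := by
    rw [Nat.card_eq_fintype_card, ZMod.card_units_eq_totient]
  have hL := Subgroup.card_eq_card_quotient_mul_card_subgroup (HH t)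
  rw [hU, hcard] at hL
  have htot : Nat.totient (2 * m) = Nat.totient m := by
    rw [Nat.totient_mul hco, Nat.totient_two, one_mul]
  refine (trdeg_bound_aux h1 hm t ht _ rfl).trans ?_
  rw [Nat.cast_le, htot, hord]
  set N := Nat.card ((ZMod m)ˣ ⧸ HH t) with hNdef
  have hf0 : 0 < orderOf t := orderOf_pos t
  obtain ⟨g, hg⟩ : ∃ g, orderOf t = g + 1 := ⟨orderOf t - 1, by omega⟩
  rw [hg] at hL ⊢
  have e1 : Nat.totient m / 2 = N * (g + 1) := by
    rw [hL]
    have : N * (2 * (g + 1)) = 2 * (N * (g + 1)) := by ring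
    rw [this, Nat.mul_div_cancel_left _ two_pos]
  have e2 : Nat.totient m / (2 * (g + 1)) = N := by
    rw [hL, Nat.mul_div_cancel _ (by omega)]
  rw [e1, e2, Nat.add_sub_cancel]
  have : N * (g + 1) = N * g + N := by ring
  omega

end Pool.Agent.V1143.LR
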