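import Mathlib

/-!
# Relations between Gamma values with denominator `2m`, `m` odd
-/

namespace Pool.Agent.V1143.LR

open Complex

variable {m : ℕ}

/-- least positive residue of a unit modulo `m` -/
noncomputable def rr (u : (ZMod m)ˣ) : ℕ := (u : ZMod m).val

/-- the odd one of `rr u`, `rr u + m` (for `m` odd) -/
noncomputable def cc (u : (ZMod m)ˣ) : ℕ := if Odd (rr u) then rr u else rr u + m

noncomputable def gg (u : (ZMod m)ˣ) : ℂ := Complex.Gamma ((cc u : ℂ) / ((2 * m : ℕ) : ℂ))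

noncomputable def hh (u : (ZMod m)ˣ) : ℂ := Complex.Gamma ((rr u : ℂ) / (m : ℂ))

theorem rr_lt (h1 : 1 < m) (u : (ZMod m)ˣ) : rr u < m := by
  have : NeZero m := ⟨by omega⟩
  exact ZMod.val_lt _

theorem rr_pos (h1 : 1 < m) (u : (ZMod m)ˣ) : 0 < rr u := by
  have : Fact (1 < m) := ⟨h1⟩
  have : NeZero m := ⟨by omega⟩
  refine Nat.pos_of_ne_zero fun h => ?_
  have h0 : (u : ZMod m) = 0 := (ZMod.val_eq_zero _).1 h
  exact u.ne_zero h0

theorem rr_cast (h1 : 1 < m) (u : (ZMod m)ˣ) : ((rr u : ℕ) : ZMod m) = u := by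
  have : NeZero m := ⟨by omega⟩
  exact ZMod.natCast_zmod_val _

theorem Gamma_ne_zero_of_pos {a b : ℕ} (ha : 0 < a) (hb : 0 < b) :
    Complex.Gamma ((a : ℂ) / (b : ℂ)) ≠ 0 := by
  refine Complex.Gamma_ne_zero_of_re_pos ?_
  have h : ((a : ℂ) / (b : ℂ)) = (((a : ℝ) / (b : ℝ) : ℝ) : ℂ) := by push_cast; rfl
  rw [h, Complex.ofReal_re]
  positivity

theorem hh_ne_zero (h1 : 1 < m) (u : (ZMod m)ˣ) : hh u ≠ 0 :=
  Gamma_ne_zero_of_pos (rr_pos h1 u) (by omega)

theorem cc_pos (h1 : 1 < m) (u : (ZMod m)ˣ) : 0 < cc u := by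
  have := rr_pos h1 u
  unfold cc
  split_ifs <;> omega

theorem cc_lt (h1 : 1 < m) (u : (ZMod m)ˣ) : cc u < 2 * m := by
  have := rr_lt h1 u
  unfold cc
  split_ifs <;> omega

theorem gg_ne_zero (h1 : 1 < m) (u : (ZMod m)ˣ) : gg u ≠ 0 :=
  Gamma_ne_zero_of_pos (cc_pos h1 u) (by omega)

/-- duplication formula -/
theorem dup (h1 : 1 < m) (hm : Odd m) (t : (ZMod m)ˣ) (ht : (t : ZMod m) = 2) (v : (ZMod m)ˣ) :
    gg (t * v) * hh v
      = hh (t * v) * (2 : ℂ) ^ (1 - (rr (t * v) : ℂ) / (m : ℂ)) * (√Real.pi : ℂ) := by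
  have hmc : (m : ℂ) ≠ 0 := by
    have : m ≠ 0 := by omega
    exact_mod_cast this
  have hv := rr_lt h1 v
  have hv0 := rr_pos h1 v
  have hu := rr_lt h1 (t * v)
  have hu0 := rr_pos h1 (t * v)
  have hcong : ((2 * rr v : ℕ) : ZMod m) = ((rr (t * v) : ℕ) : ZMod m) := by
    rw [rr_cast h1]
    push_cast
    rw [rr_cast h1, ht]
  have hmod : 2 * rr v ≡ rr (t * v) [MOD m] := (ZMod.natCast_eq_natCast_iff _ _ _).1 hcong
  have hcase : 2 * rr v = rr (t * v) ∨ 2 * rr v = rr (t * v) + m := by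
    have h2 : 2 * rr v % m = rr (t * v) := by
      have := hmod
      unfold Nat.ModEq at this
      rw [Nat.mod_eq_of_lt hu] at this
      exact this
    rcases lt_or_ge (2 * rr v) m with h3 | h3
    · left
      rw [Nat.mod_eq_of_lt h3] at h2
      exact h2
    · right
      have h4 : 2 * rr v - m < m := by omega
      have h5 : 2 * rr v % m = 2 * rr v - m := by
        rw [Nat.mod_eq_sub_mod h3, Nat.mod_eq_of_lt h4]
      omega
  have hD := Complex.Gamma_mul_Gamma_add_half ((rr (t * v) : ℂ) / ((2 * m : ℕ) : ℂ))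
  have h2s : 2 * ((rr (t * v) : ℂ) / ((2 * m : ℕ) : ℂ)) = (rr (t * v) : ℂ) / (m : ℂ) := by
    push_cast
    field_simp
  have hs2 : (rr (t * v) : ℂ) / ((2 * m : ℕ) : ℂ) + 1 / 2
      = ((rr (t * v) + m : ℕ) : ℂ) / ((2 * m : ℕ) : ℂ) := by
    push_cast
    field_simp
  rw [h2s, hs2] at hD
  rcases hcase with h | h
  · have hodd : ¬ Odd (rr (t * v)) := by
      rw [← h]
      simp
    have e1 : gg (t * v) = Complex.Gamma (((rr (t * v) + m : ℕ) : ℂ) / ((2 * m : ℕ) : ℂ)) := by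
      unfold gg cc
      rw [if_neg hodd]
    have e2 : hh v = Complex.Gamma ((rr (t * v) : ℂ) / ((2 * m : ℕ) : ℂ)) := by
      unfold hh
      congr 1
      rw [← h]
      push_cast
      field_simp
    rw [e1, e2, mul_comm, hD]
    rfl
  · have hodd : Odd (rr (t * v)) := by
      have h3 : rr (t * v) + m = 2 * rr v := h.symm
      have h4 : Even (rr (t * v) + m) := ⟨rr v, by omega⟩
      rcases Nat.even_or_odd (rr (t * v)) with h5 | h5
      · exact absurd h4 (by rw [Nat.not_even_iff_odd]; exact h5.add_odd hm)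
      · exact h5
    have e1 : gg (t * v) = Complex.Gamma ((rr (t * v) : ℂ) / ((2 * m : ℕ) : ℂ)) := by
      unfold gg cc
      rw [if_pos hodd]
    have e2 : hh v = Complex.Gamma (((rr (t * v) + m : ℕ) : ℂ) / ((2 * m : ℕ) : ℂ)) := by
      unfold hh
      congr 1
      rw [← h]
      push_cast
      field_simp
    rw [e1, e2, hD]
    rfl

/-- reflection formula -/
theorem refl (h1 : 1 < m) (hm : Odd m) (u : (ZMod m)ˣ) :
    gg u * gg (-u) = (Real.pi : ℂ) / Complex.sin (Real.pi * ((cc u : ℂ) / ((2 * m : ℕ) : ℂ))) := by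
  have hmc : (m : ℂ) ≠ 0 := by
    have : m ≠ 0 := by omega
    exact_mod_cast this
  have : NeZero m := ⟨by omega⟩
  have hu := rr_lt h1 u
  have hu0 := rr_pos h1 u
  have hneg : rr (-u) = m - rr u := by
    unfold rr
    rw [Units.val_neg, ZMod.neg_val, if_neg]
    intro h0
    have : Fact (1 < m) := ⟨h1⟩
    exact u.ne_zero h0
  have hcc : cc (-u) = 2 * m - cc u := by
    unfold cc
    rw [hneg]
    rcases Nat.even_or_odd (rr u) with h5 | h5
    · have h6 : ¬ Odd (rr u) := by rw [Nat.not_odd_iff_even]; exact h5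
      have h7 : Odd (m - rr u) := by
        rw [Nat.odd_sub hu.le]
        exact ⟨fun _ => h5, fun _ => hm⟩
      rw [if_neg h6, if_pos h7]
      omega
    · have h7 : ¬ Odd (m - rr u) := by
        rw [Nat.not_odd_iff_even, Nat.even_sub hu.le]
        constructor
        · intro h; exact absurd h (by rw [Nat.not_even_iff_odd]; exact hm)
        · intro h; exact absurd h (by rw [Nat.not_even_iff_odd]; exact h5)
      rw [if_pos h5, if_neg h7]
      omega
  have hlt := cc_lt h1 u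
  have e : ((cc (-u) : ℕ) : ℂ) / ((2 * m : ℕ) : ℂ) = 1 - (cc u : ℂ) / ((2 * m : ℕ) : ℂ) := by
    rw [hcc, Nat.cast_sub hlt.le]
    have : ((2 * m : ℕ) : ℂ) ≠ 0 := by
      have : 2 * m ≠ 0 := by omega
      exact_mod_cast this
    field_simp
  unfold gg
  rw [e, Complex.Gamma_mul_Gamma_one_sub]

/-- an odd number prime to `m` is `cc` of its class -/
theorem cc_unitOfCoprime (h1 : 1 < m) (a : ℕ) (hlt : a < 2 * m)
    (hodd : Odd a) (hm : Odd m) (hco : Nat.Coprime a m) :
    cc (ZMod.unitOfCoprime a hco) = a := by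
  have : NeZero m := ⟨by omega⟩
  have hr : rr (ZMod.unitOfCoprime a hco) = a % m := by
    unfold rr
    rw [ZMod.coe_unitOfCoprime, ZMod.val_natCast]
  unfold cc
  rw [hr]
  rcases lt_or_ge a m with h | h
  · rw [Nat.mod_eq_of_lt h, if_pos hodd]
  · have h4 : a - m < m := by omega
    have h5 : a % m = a - m := by
      rw [Nat.mod_eq_sub_mod h, Nat.mod_eq_of_lt h4]
    rw [h5]
    have h6 : ¬ Odd (a - m) := by
      rw [Nat.not_odd_iff_even, Nat.even_sub h]
      constructor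
      · intro h; exact absurd h (by rw [Nat.not_even_iff_odd]; exact hodd)
      · intro h; exact absurd h (by rw [Nat.not_even_iff_odd]; exact hm)
    rw [if_neg h6]
    omega

/-- the product over a coset of the group generated by `2` -/
theorem coset_prod (h1 : 1 < m) (hm : Odd m) (t : (ZMod m)ˣ) (ht : (t : ZMod m) = 2)
    (f : ℕ) (hf : t ^ f = 1) (w : (ZMod m)ˣ) :
    ∏ i ∈ Finset.range f, gg (t ^ (i + 1) * w)
      = ∏ i ∈ Finset.range f, ((2 : ℂ) ^ (1 - (rr (t ^ (i + 1) * w) : ℂ) / (m : ℂ))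
          * (√Real.pi : ℂ)) := by
  have key : ∀ i, gg (t ^ (i + 1) * w) * hh (t ^ i * w)
      = hh (t ^ (i + 1) * w) * ((2 : ℂ) ^ (1 - (rr (t ^ (i + 1) * w) : ℂ) / (m : ℂ))
          * (√Real.pi : ℂ)) := by
    intro i
    have h := dup h1 hm t ht (t ^ i * w)
    have e : t * (t ^ i * w) = t ^ (i + 1) * w := by rw [pow_succ']; group
    rw [e] at h
    rw [h]; ring
  have hprod : (∏ i ∈ Finset.range f, gg (t ^ (i + 1) * w))
        * ∏ i ∈ Finset.range f, hh (t ^ i * w)
      = (∏ i ∈ Finset.range f, hh (t ^ (i + 1) * w))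
        * ∏ i ∈ Finset.range f, ((2 : ℂ) ^ (1 - (rr (t ^ (i + 1) * w) : ℂ) / (m : ℂ))
          * (√Real.pi : ℂ)) := by
    rw [← Finset.prod_mul_distrib, ← Finset.prod_mul_distrib]
    exact Finset.prod_congr rfl fun i _ => key i
  have hshift : ∏ i ∈ Finset.range f, hh (t ^ (i + 1) * w) = ∏ i ∈ Finset.range f, hh (t ^ i * w) := by
    have a := Finset.prod_range_succ' (fun i => hh (t ^ i * w)) f
    have b := Finset.prod_range_succ (fun i => hh (t ^ i * w)) f
    rw [b] at a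
    simp only [hf, pow_zero] at a
    exact (mul_right_cancel₀ (hh_ne_zero h1 (1 * w)) a).symm
  rw [hshift, mul_comm] at hprod
  exact mul_left_cancel₀ (Finset.prod_ne_zero_iff.2 fun i _ => hh_ne_zero h1 _) hprod

end Pool.Agent.V1143.LR
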