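import Pool.Agent.V1143.LR.Bound

/-!
# Unboundedly large defect
-/

namespace Pool.Agent.V1143.LR

open Complex Cardinal

theorem pow_ne_neg_one {m L : ℕ} (h2 : 2 < m) (hL : Odd L) (h : (2 : ZMod m) ^ L = 1) (k : ℕ) :
    (2 : ZMod m) ^ k ≠ -1 := by
  intro hk
  have h3 : ((2 : ZMod m) ^ k) ^ L = 1 := by
    rw [← pow_mul, mul_comm, pow_mul, h, one_pow]
  rw [hk, hL.neg_one_pow] at h3
  have h4 : ((2 : ℕ) : ZMod m) = 0 := by
    have : (2 : ZMod m) = 1 - (-1) := by ring
    push_cast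
    rw [this, h3, sub_self]
  have h5 := (ZMod.natCast_eq_zero_iff 2 m).1 h4
  have := Nat.le_of_dvd two_pos h5
  omega

theorem exists_good (r : ℕ) : ∃ m L : ℕ, 6 < m ∧ Odd m ∧ Odd L ∧ 2 ^ L ≡ 1 [MOD m] ∧
    Nat.totient m = 2 ^ (r + 1) * L := by
  induction r with
  | zero => exact ⟨7, 3, by norm_num, by decide, by decide, by decide, by decide⟩
  | succ r ih =>
    obtain ⟨m, L, hm6, hm, hL, hmod, htot⟩ := ih
    have hu : IsUnit ((7 : ZMod 8)) := by decide
    obtain ⟨p, hpm, hp, hp7⟩ := Nat.forall_exists_prime_gt_and_eq_mod hu m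
    have hp8 : p % 8 = 7 := by
      have h1 : ((p : ℕ) : ZMod 8) = ((7 : ℕ) : ZMod 8) := by rw [hp7]; rfl
      have h2 := (ZMod.natCast_eq_natCast_iff' p 7 8).1 h1
      simpa using h2
    have : Fact p.Prime := ⟨hp⟩
    have hp2 : p ≠ 2 := by omega
    have hsq : IsSquare (2 : ZMod p) := (ZMod.exists_sq_eq_two_iff hp2).2 (Or.inr hp8)
    have h20 : (2 : ZMod p) ≠ 0 := by
      intro h
      have h4 : ((2 : ℕ) : ZMod p) = 0 := by exact_mod_cast h
      have h5 := (ZMod.natCast_eq_zero_iff 2 p).1 h4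
      have := Nat.le_of_dvd two_pos h5
      omega
    have hpow : (2 : ZMod p) ^ (p / 2) = 1 := (ZMod.euler_criterion p h20).1 hsq
    have hpmod : 2 ^ (p / 2) ≡ 1 [MOD p] := by
      rw [← ZMod.natCast_eq_natCast_iff]
      push_cast
      exact hpow
    have hodd : Odd (p / 2) := by
      rw [Nat.odd_iff]
      omega
    have hcop : Nat.Coprime m p := by
      refine (Nat.coprime_comm.1 ((Nat.Prime.coprime_iff_not_dvd hp).2 fun h => ?_))
      have := Nat.le_of_dvd (by omega) h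
      omega
    refine ⟨m * p, L * (p / 2), by nlinarith, hm.mul (by rw [Nat.odd_iff]; omega), hL.mul hodd,
      ?_, ?_⟩
    · rw [← Nat.modEq_and_modEq_iff_modEq_mul hcop]
      constructor
      · have := hmod.pow (p / 2)
        rwa [← pow_mul, one_pow] at this
      · have := hpmod.pow L
        rwa [← pow_mul, one_pow, mul_comm (p / 2)] at this
    · rw [Nat.totient_mul hcop, htot, Nat.totient_prime hp]
      have : p - 1 = 2 * (p / 2) := by omega
      rw [this]
      ring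

theorem unbounded (C : ℕ) : ∃ q : ℕ, 2 < q ∧
    Algebra.trdeg ℚ (gammaField q) + (C : Cardinal) ≤ ((1 + Nat.totient q / 2 : ℕ) : Cardinal) := by
  obtain ⟨m, L, hm6, hm, hL, hmod, htot⟩ := exists_good C
  have hpow : (2 : ZMod m) ^ L = 1 := by
    have := (ZMod.natCast_eq_natCast_iff (2 ^ L) 1 m).2 hmod
    simpa using this
  refine ⟨2 * m, by omega, ?_⟩
  have hb := trdeg_bound (by omega) hm (pow_ne_neg_one (by omega) hL hpow)
  refine (add_le_add hb le_rfl).trans ?_
  rw [← Nat.cast_add, Nat.cast_le]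
  have hco : Nat.Coprime 2 m := Nat.coprime_two_left.2 hm
  have htot2 : Nat.totient (2 * m) = Nat.totient m := by
    rw [Nat.totient_mul hco, Nat.totient_two, one_mul]
  rw [htot2]
  have hdvd : orderOf (2 : ZMod m) ∣ L := orderOf_dvd_of_pow_eq_one hpow
  have hL0 : 0 < L := hL.pos
  have hf0 : 0 < orderOf (2 : ZMod m) := Nat.pos_of_dvd_of_pos hdvd hL0
  have hfL : orderOf (2 : ZMod m) ≤ L := Nat.le_of_dvd hL0 hdvd
  have h1 : C ≤ Nat.totient m / (2 * orderOf (2 : ZMod m)) := by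
    rw [Nat.le_div_iff_mul_le (by omega), htot]
    have h2 : C ≤ 2 ^ C := Nat.lt_two_pow_self.le
    calc C * (2 * orderOf (2 : ZMod m)) ≤ 2 ^ C * (2 * L) := by
          exact Nat.mul_le_mul h2 (by omega)
      _ = 2 ^ (C + 1) * L := by ring
  have h3 : Nat.totient m / (2 * orderOf (2 : ZMod m)) ≤ Nat.totient m / 2 := by
    refine Nat.div_le_div_left (by omega) (by norm_num)
  omega

theorem fourteen : Algebra.trdeg ℚ (gammaField 14) ≤ ((3 : ℕ) : Cardinal) := by
  have hpow : (2 : ZMod 7) ^ 3 = 1 := by decide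
  have hb := trdeg_bound (m := 7) (by norm_num) (by decide)
    (pow_ne_neg_one (m := 7) (L := 3) (by norm_num) (by decide) hpow)
  have hord : orderOf (2 : ZMod 7) = 3 := by
    refine orderOf_eq_prime hpow (by decide)
  rw [hord] at hb
  have e : 1 + Nat.totient (2 * 7) / 2 - Nat.totient (2 * 7) / (2 * 3) = 3 := by decide
  rw [e] at hb
  exact hb

end Pool.Agent.V1143.LR
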