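import Pool.Agent.V1143.LR.Alg
import Pool.Agent.V1143.LR.Gam

/-!
# Upper bound for the transcendence degree of the field of Gamma values with denominator `2m`
-/

namespace Pool.Agent.V1143.LR

open Complex Cardinal

/-- `F_q = ℚ(π, Γ(a/q) : 1 ≤ a ≤ q - 1, gcd(a,q) = 1)`. -/
noncomputable def gammaField (q : ℕ) : IntermediateField ℚ ℂ :=
  IntermediateField.adjoin ℚ
    ({(Real.pi : ℂ)} ∪
      {z : ℂ | ∃ a : ℕ, 1 ≤ a ∧ a ≤ q - 1 ∧ Nat.gcd a q = 1 ∧
        z = Complex.Gamma ((a : ℂ) / (q : ℂ))})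

section closure

variable (E : IntermediateField ℚ ℂ)

theorem alg_of_rat_pow {z : ℂ} {n : ℕ} (hn : 0 < n) {y : ℂ} (hy : IsAlgebraic E y)
    (h : z ^ n = y) : IsAlgebraic E z := by
  rw [← h] at hy
  exact IsAlgebraic.of_pow hn hy

theorem isAlgebraic_natCast' (k : ℕ) : IsAlgebraic E (k : ℂ) := by
  have h := isAlgebraic_algebraMap (A := ℂ) ((k : ℕ) : E)
  rwa [map_natCast] at h

theorem isAlgebraic_two' : IsAlgebraic E (2 : ℂ) := by
  exact_mod_cast isAlgebraic_natCast' E 2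

theorem isAlgebraic_two_cpow (a n : ℕ) (hn : 0 < n) :
    IsAlgebraic E ((2 : ℂ) ^ (1 - (a : ℂ) / (n : ℂ))) := by
  have hn' : (n : ℂ) ≠ 0 := by exact_mod_cast hn.ne'
  have h2 : (2 : ℂ) ≠ 0 := two_ne_zero
  rw [Complex.cpow_sub _ _ h2, Complex.cpow_one]
  rw [div_eq_mul_inv]
  refine IsAlgebraic.mul (isAlgebraic_two' E) (IsAlgebraic.inv ?_)
  refine alg_of_rat_pow E hn (y := (2 : ℂ) ^ a) ?_ ?_
  · exact (isAlgebraic_two' E).pow a
  · rw [← Complex.cpow_nat_mul]
    rw [mul_div_cancel₀ _ hn', Complex.cpow_natCast]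

theorem isAlgebraic_I : IsAlgebraic E Complex.I := by
  refine alg_of_rat_pow E (n := 2) two_pos (y := -1) ?_ (by simp)
  have := isAlgebraic_algebraMap (A := ℂ) (-1 : E)
  simpa using this

theorem isAlgebraic_sin (a n : ℕ) (hn : 0 < n) :
    IsAlgebraic E (Complex.sin (Real.pi * ((a : ℂ) / (n : ℂ)))) := by
  have hn' : (n : ℂ) ≠ 0 := by exact_mod_cast hn.ne'
  have hexp : ∀ s : ℤ, s = 1 ∨ s = -1 →
      IsAlgebraic E (Complex.exp ((s : ℂ) * (Real.pi * ((a : ℂ) / (n : ℂ))) * Complex.I)) := by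
    intro s _
    refine alg_of_rat_pow E (n := 2 * n) (by omega) (y := 1) ?_ ?_
    · have := isAlgebraic_algebraMap (A := ℂ) (1 : E)
      simpa using this
    · rw [← Complex.exp_nat_mul]
      have : ((2 * n : ℕ) : ℂ) * ((s : ℂ) * (Real.pi * ((a : ℂ) / (n : ℂ))) * Complex.I)
          = ((s * a : ℤ) : ℂ) * (2 * Real.pi * Complex.I) := by
        push_cast
        field_simp
      rw [this, Complex.exp_int_mul_two_pi_mul_I]
  have h1 := hexp (-1) (Or.inr rfl)
  have h2 := hexp 1 (Or.inl rfl)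
  have e : Complex.sin (Real.pi * ((a : ℂ) / (n : ℂ)))
      = (Complex.exp (((-1 : ℤ) : ℂ) * (Real.pi * ((a : ℂ) / (n : ℂ))) * Complex.I)
        - Complex.exp (((1 : ℤ) : ℂ) * (Real.pi * ((a : ℂ) / (n : ℂ))) * Complex.I))
          * Complex.I / 2 := by
    rw [Complex.sin]
    congr 3
    · congr 1; push_cast; ring
    · congr 1; push_cast; ring
  rw [e, div_eq_mul_inv]
  exact IsAlgebraic.mul (IsAlgebraic.mul (h1.sub h2) (isAlgebraic_I E)) (isAlgebraic_two' E).inv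

end closure

variable {m : ℕ}

/-- if `Γ` at all but one member of a coset of `⟨2⟩` is algebraic over `E`, so are all, and so
are those at the opposite coset. -/
theorem coset_alg (E : IntermediateField ℚ ℂ) (hpi : (Real.pi : ℂ) ∈ E)
    (h1 : 1 < m) (hm : Odd m) (t : (ZMod m)ˣ) (ht : (t : ZMod m) = 2)
    (f : ℕ) (hf0 : 0 < f) (hf : t ^ f = 1) (w : (ZMod m)ˣ)
    (hw : ∀ i, 1 ≤ i → i < f → IsAlgebraic E (gg (t ^ i * w))) (i : ℕ) (hi : i < f) :
    IsAlgebraic E (gg (t ^ i * w)) ∧ IsAlgebraic E (gg (-(t ^ i * w))) := by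
  have hpia : IsAlgebraic E (Real.pi : ℂ) :=
    isAlgebraic_algebraMap (A := ℂ) (⟨Real.pi, hpi⟩ : E)
  have hsq : IsAlgebraic E (√Real.pi : ℂ) := by
    refine alg_of_rat_pow E (n := 2) two_pos hpia ?_
    rw [← Complex.ofReal_pow, Real.sq_sqrt Real.pi_pos.le]
  have hprod : ∀ s : Finset ℕ, ∀ F : ℕ → ℂ, (∀ j ∈ s, IsAlgebraic E (F j)) →
      IsAlgebraic E (∏ j ∈ s, F j) := by
    intro s F
    induction s using Finset.induction_on with
    | empty =>
      intro _
      have := isAlgebraic_algebraMap (A := ℂ) (1 : E)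
      simpa using this
    | insert a s ha ih =>
      intro h
      rw [Finset.prod_insert ha]
      exact (h a (Finset.mem_insert_self _ _)).mul
        (ih fun j hj => h j (Finset.mem_insert_of_mem hj))
  have hA : ∀ i, i < f → IsAlgebraic E (gg (t ^ i * w)) := by
    intro i hi
    rcases Nat.eq_zero_or_pos i with h0 | h0
    · subst h0
      have hc := coset_prod h1 hm t ht f hf w
      have hR : IsAlgebraic E (∏ i ∈ Finset.range f,
          ((2 : ℂ) ^ (1 - (rr (t ^ (i + 1) * w) : ℂ) / (m : ℂ)) * (√Real.pi : ℂ))) :=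
        hprod _ _ fun j _ => (isAlgebraic_two_cpow E _ m (by omega)).mul hsq
      rw [← hc] at hR
      obtain ⟨k, rfl⟩ : ∃ k, f = k + 1 := ⟨f - 1, by omega⟩
      rw [Finset.prod_range_succ] at hR
      have hP : IsAlgebraic E (∏ j ∈ Finset.range k, gg (t ^ (j + 1) * w)) :=
        hprod _ _ fun j hj => hw (j + 1) (by omega) (by
          have := Finset.mem_range.1 hj
          omega)
      have hP0 : ∏ j ∈ Finset.range k, gg (t ^ (j + 1) * w) ≠ 0 :=
        Finset.prod_ne_zero_iff.2 fun j _ => gg_ne_zero h1 _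
      have := hR.mul hP.inv
      rw [mul_comm (∏ j ∈ Finset.range k, gg (t ^ (j + 1) * w)), mul_assoc,
        mul_inv_cancel₀ hP0, mul_one, hf] at this
      simpa using this
    · exact hw i h0 hi
  refine ⟨hA i hi, ?_⟩
  have hr := refl h1 hm (t ^ i * w)
  have h3 : gg (-(t ^ i * w)) = (Real.pi : ℂ)
      * (Complex.sin (Real.pi * ((cc (t ^ i * w) : ℂ) / ((2 * m : ℕ) : ℂ))))⁻¹
      * (gg (t ^ i * w))⁻¹ := by
    rw [← div_eq_mul_inv (Real.pi : ℂ), ← hr]
    field_simp [gg_ne_zero h1 (t ^ i * w)]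
  rw [h3]
  exact (hpia.mul (isAlgebraic_sin E _ _ (by omega)).inv).mul (hA i hi).inv

end Pool.Agent.V1143.LR
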